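import Mathlib

/-!
# Haggkvist's constant for avoiding sparse list assignments on `K_{n,n}` is at most `1/4`

For every `n ≥ 1` there is an unavoidable list assignment for `K_{n,n}` all of whose
multiplicities (size of a list, number of edges at a vertex forbidding a given colour) are at most
`⌊n/4⌋ + 1`.  The obstruction is a parity argument: give every left vertex, every right vertex and
every colour a type in the Klein four-group and forbid the colours whose type is the sum of the
types of the two ends.  The indicator function of the event that three types sum to zero is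
`(1 + x₁ + y₁ + z₁) (1 + x₂ + y₂ + z₂)` over the field with two elements; each monomial of it
involves at most two of the three types, so its sum over the cells of a Latin square does not
depend on the Latin square.  For suitable type sizes this sum is `1`.
-/

namespace Pool.Agent.Results.MP_ba4857_co.QuarterBound

open Finset

/-- A list assignment for `K_{n,n}`: the edge that joins the left vertex `i` to the right vertex
`j` gets the set `L i j` of forbidden colours, a subset of the `n` colours `Fin n`. -/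
abbrev ListAssignment (n : ℕ) : Type := Fin n → Fin n → Finset (Fin n)

/-- All lists have size at most `m`, and every colour is forbidden on at most `m` edges at every
(left or right) vertex. -/
def BoundedBy {n : ℕ} (m : ℕ) (L : ListAssignment n) : Prop :=
  (∀ i j, (L i j).card ≤ m) ∧
  (∀ i c, (univ.filter fun j => c ∈ L i j).card ≤ m) ∧
  (∀ j c, (univ.filter fun i => c ∈ L i j).card ≤ m)

/-- `L` is `β`-sparse: `|L(e)| ≤ β n` for every edge `e`, and every colour is forbidden on at most
`β n` edges at every (left or right) vertex. -/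
def Sparse {n : ℕ} (β : ℝ) (L : ListAssignment n) : Prop :=
  (∀ i j, ((L i j).card : ℝ) ≤ β * n) ∧
  (∀ i c, ((univ.filter fun j => c ∈ L i j).card : ℝ) ≤ β * n) ∧
  (∀ j c, ((univ.filter fun i => c ∈ L i j).card : ℝ) ≤ β * n)

/-- `f` is a proper edge colouring of `K_{n,n}` with the colours `Fin n`: two edges sharing their
left end, or their right end, get different colours. -/
def Proper {n : ℕ} (f : Fin n → Fin n → Fin n) : Prop :=
  (∀ i j j', f i j = f i j' → j = j') ∧ (∀ j i i', f i j = f i' j → i = i')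

/-- `L` is avoidable: some proper `n`-edge colouring gives no edge a colour forbidden on it. -/
def Avoidable {n : ℕ} (L : ListAssignment n) : Prop :=
  ∃ f : Fin n → Fin n → Fin n, Proper f ∧ ∀ i j, f i j ∉ L i j

/-- The optimal sparsity constant: the supremum of all `β ≥ 0` such that for every `n ≥ 1` every
`β`-sparse list assignment for `K_{n,n}` is avoidable. -/
noncomputable def betaStar : ℝ :=
  sSup {β : ℝ | 0 ≤ β ∧ ∀ n : ℕ, 1 ≤ n → ∀ L : ListAssignment n, Sparse β L → Avoidable L}

/-! ### Types -/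

/-- First coordinate of a type. -/
def xb : Fin 4 → ZMod 2 := ![0, 0, 1, 1]

/-- Second coordinate of a type. -/
def yb : Fin 4 → ZMod 2 := ![0, 1, 0, 1]

/-- The addition of types. -/
def op (p q : Fin 4) : Fin 4 :=
  (![![0, 1, 2, 3], ![1, 0, 3, 2], ![2, 3, 0, 1], ![3, 2, 1, 0]] : Fin 4 → Fin 4 → Fin 4) p q

theorem ind : ∀ p q r : Fin 4,
    (1 + xb p + xb q + xb r) * (1 + yb p + yb q + yb r) = if r = op p q then 1 else 0 := by
  decide

theorem op_left : ∀ p q r : Fin 4, r = op p q ↔ q = op p r := by decide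

theorem op_right : ∀ p q r : Fin 4, r = op p q ↔ p = op q r := by decide

theorem exists_types {n : ℕ} (s : Fin 4 → ℕ) (hs : ∑ t, s t = n) :
    ∃ a : Fin n → Fin 4, ∀ t, (univ.filter fun i => a i = t).card = s t := by
  classical
  have hc : Fintype.card (Fin n) = Fintype.card (Σ t : Fin 4, Fin (s t)) := by
    simp [hs]
  let e : Fin n ≃ (Σ t : Fin 4, Fin (s t)) := Fintype.equivOfCardEq hc
  refine ⟨fun i => (e i).1, fun t => ?_⟩
  have h1 : (univ.filter fun i => (e i).1 = t).card
      = (univ.filter fun z : (Σ t : Fin 4, Fin (s t)) => z.1 = t).card := by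
    apply Finset.card_bij (fun i _ => e i)
    · intro i hi; simpa using hi
    · intro i _ j _ h; exact e.injective h
    · intro z hz
      refine ⟨e.symm z, ?_, ?_⟩
      · simpa using hz
      · simp
  rw [h1]
  have h2 : (univ.filter fun z : (Σ t : Fin 4, Fin (s t)) => z.1 = t)
      = (univ : Finset (Fin (s t))).map ⟨fun x => (⟨t, x⟩ : Σ t : Fin 4, Fin (s t)),
          fun x y h => by simpa using h⟩ := by
    ext ⟨t', x⟩
    simp only [mem_filter, mem_univ, true_and, mem_map]
    constructor
    · rintro rfl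
      exact ⟨x, rfl⟩
    · rintro ⟨y, hy⟩
      exact (congrArg Sigma.fst hy).symm
  rw [h2, card_map]
  simp

/-- Sum of a function of the types. -/
theorem sum_types {n : ℕ} {s : Fin 4 → ℕ} {a : Fin n → Fin 4}
    (ha : ∀ t, (univ.filter fun i => a i = t).card = s t) (g : Fin 4 → ZMod 2) :
    ∑ i, g (a i) = ∑ t, (s t : ZMod 2) * g t := by
  classical
  rw [← Finset.sum_fiberwise (univ : Finset (Fin n)) a (fun i => g (a i))]
  apply Finset.sum_congr rfl
  intro t _
  rw [Finset.sum_congr rfl (g := fun _ => g t)]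
  · rw [Finset.sum_const, ha t, nsmul_eq_mul]
  · intro i hi
    rw [(mem_filter.mp hi).2]

/-! ### The invariant -/

theorem row_sum {n : ℕ} {f : Fin n → Fin n → Fin n} (hf : Proper f) (g : Fin n → ZMod 2)
    (i : Fin n) : ∑ j, g (f i j) = ∑ k, g k := by
  have hb : Function.Bijective (f i) :=
    Finite.injective_iff_bijective.mp (fun j j' h => hf.1 i j j' h)
  exact hb.sum_comp g

theorem col_sum {n : ℕ} {f : Fin n → Fin n → Fin n} (hf : Proper f) (g : Fin n → ZMod 2)
    (j : Fin n) : ∑ i, g (f i j) = ∑ k, g k := by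
  have hb : Function.Bijective (fun i => f i j) :=
    Finite.injective_iff_bijective.mp (fun i i' h => hf.2 j i i' h)
  exact hb.sum_comp g

theorem invariant {n : ℕ} {f : Fin n → Fin n → Fin n} (hf : Proper f)
    (u v w u' v' w' : Fin n → ZMod 2) :
    ∑ i, ∑ j, (1 + u i + v j + w (f i j)) * (1 + u' i + v' j + w' (f i j)) =
      (n : ZMod 2) * n
      + n * ((∑ i, u i) + (∑ i, u' i) + (∑ i, u i * u' i))
      + n * ((∑ i, v i) + (∑ i, v' i) + (∑ i, v i * v' i))
      + n * ((∑ i, w i) + (∑ i, w' i) + (∑ i, w i * w' i))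
      + (∑ i, u i) * (∑ i, v' i) + (∑ i, v i) * (∑ i, u' i)
      + (∑ i, u i) * (∑ i, w' i) + (∑ i, w i) * (∑ i, u' i)
      + (∑ i, v i) * (∑ i, w' i) + (∑ i, w i) * (∑ i, v' i) := by
  have hexp : ∀ i j, (1 + u i + v j + w (f i j)) * (1 + u' i + v' j + w' (f i j)) =
      1 + (u i + u' i + u i * u' i) + (v j + v' j + v j * v' j)
      + (w (f i j) + w' (f i j) + w (f i j) * w' (f i j))
      + u i * v' j + u' i * v j + u i * w' (f i j) + u' i * w (f i j)
      + v j * w' (f i j) + v' j * w (f i j) := by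
    intro i j; ring
  have e1 : ∑ _i : Fin n, ∑ _j : Fin n, (1 : ZMod 2) = n * n := by simp
  have e2 : ∀ g : Fin n → ZMod 2, ∑ i : Fin n, ∑ _j : Fin n, g i = n * ∑ i, g i := by
    intro g; simp [Finset.mul_sum]
  have e3 : ∀ g : Fin n → ZMod 2, ∑ _i : Fin n, ∑ j : Fin n, g j = n * ∑ i, g i := by
    intro g; simp
  have e4 : ∀ g : Fin n → ZMod 2, ∑ i : Fin n, ∑ j : Fin n, g (f i j) = n * ∑ i, g i := by
    intro g
    rw [Finset.sum_congr rfl (fun i _ => row_sum hf g i)]
    simp
  have e5 : ∀ g h : Fin n → ZMod 2, ∑ i : Fin n, ∑ j : Fin n, g i * h j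
      = (∑ i, g i) * ∑ i, h i := by
    intro g h; rw [Finset.sum_mul_sum]
  have e6 : ∀ g h : Fin n → ZMod 2, ∑ i : Fin n, ∑ j : Fin n, g i * h (f i j)
      = (∑ i, g i) * ∑ i, h i := by
    intro g h
    rw [Finset.sum_mul]
    apply Finset.sum_congr rfl
    intro i _
    rw [← Finset.mul_sum, row_sum hf h i]
  have e7 : ∀ g h : Fin n → ZMod 2, ∑ i : Fin n, ∑ j : Fin n, g j * h (f i j)
      = (∑ i, g i) * ∑ i, h i := by
    intro g h
    rw [Finset.sum_comm, Finset.sum_mul]
    apply Finset.sum_congr rfl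
    intro j _
    rw [← Finset.mul_sum, col_sum hf h j]
  have key : ∑ i, ∑ j, (1 + u i + v j + w (f i j)) * (1 + u' i + v' j + w' (f i j)) =
      (∑ _i : Fin n, ∑ _j : Fin n, (1 : ZMod 2))
      + (∑ i : Fin n, ∑ _j : Fin n, (u i + u' i + u i * u' i))
      + (∑ _i : Fin n, ∑ j : Fin n, (v j + v' j + v j * v' j))
      + (∑ i : Fin n, ∑ j : Fin n, (w (f i j) + w' (f i j) + w (f i j) * w' (f i j)))
      + (∑ i : Fin n, ∑ j : Fin n, u i * v' j) + (∑ i : Fin n, ∑ j : Fin n, u' i * v j)
      + (∑ i : Fin n, ∑ j : Fin n, u i * w' (f i j))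
      + (∑ i : Fin n, ∑ j : Fin n, u' i * w (f i j))
      + (∑ i : Fin n, ∑ j : Fin n, v j * w' (f i j))
      + (∑ i : Fin n, ∑ j : Fin n, v' j * w (f i j)) := by
    simp_rw [hexp, Finset.sum_add_distrib]
  rw [key, e1, e2 (fun i => u i + u' i + u i * u' i), e3 (fun i => v i + v' i + v i * v' i),
    e4 (fun i => w i + w' i + w i * w' i), e5 u v', e5 u' v, e6 u w', e6 u' w, e7 v w', e7 v' w]
  simp only [Finset.sum_add_distrib]
  ring

/-- The value of the invariant in terms of the numbers `s t`, `s' t`, `s'' t` of left vertices,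
right vertices and colours of type `t`. -/
def charge (n : ZMod 2) (s s' s'' : Fin 4 → ZMod 2) : ZMod 2 :=
  n * n + n * ((s 2 + s 3) + (s 1 + s 3) + s 3) + n * ((s' 2 + s' 3) + (s' 1 + s' 3) + s' 3)
    + n * ((s'' 2 + s'' 3) + (s'' 1 + s'' 3) + s'' 3)
    + (s 2 + s 3) * (s' 1 + s' 3) + (s' 2 + s' 3) * (s 1 + s 3)
    + (s 2 + s 3) * (s'' 1 + s'' 3) + (s'' 2 + s'' 3) * (s 1 + s 3)
    + (s' 2 + s' 3) * (s'' 1 + s'' 3) + (s'' 2 + s'' 3) * (s' 1 + s' 3)

theorem main {n m : ℕ} (s s' s'' : Fin 4 → ℕ) (hs : ∑ t, s t = n) (hs' : ∑ t, s' t = n)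
    (hs'' : ∑ t, s'' t = n) (hm : ∀ t, s t ≤ m) (hm' : ∀ t, s' t ≤ m) (hm'' : ∀ t, s'' t ≤ m)
    (hch : charge n (fun t => (s t : ZMod 2)) (fun t => (s' t : ZMod 2))
      (fun t => (s'' t : ZMod 2)) = 1) :
    ∃ L : ListAssignment n, BoundedBy m L ∧ ¬ Avoidable L := by
  classical
  obtain ⟨a, ha⟩ := exists_types s hs
  obtain ⟨b, hb⟩ := exists_types s' hs'
  obtain ⟨c, hc⟩ := exists_types s'' hs''
  refine ⟨fun i j => univ.filter fun k => c k = op (a i) (b j), ⟨?_, ?_, ?_⟩, ?_⟩
  · intro i j
    rw [hc]; exact hm'' _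
  · intro i k
    have : (univ.filter fun j => k ∈ univ.filter fun k => c k = op (a i) (b j))
        = univ.filter fun j => b j = op (a i) (c k) := by
      ext j
      simp only [mem_filter, mem_univ, true_and]
      exact op_left _ _ _
    rw [this, hb]; exact hm' _
  · intro j k
    have : (univ.filter fun i => k ∈ univ.filter fun k => c k = op (a i) (b j))
        = univ.filter fun i => a i = op (b j) (c k) := by
      ext i
      simp only [mem_filter, mem_univ, true_and]
      exact op_right _ _ _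
    rw [this, ha]; exact hm _
  · rintro ⟨f, hf, hav⟩
    have hinv := invariant hf (fun i => xb (a i)) (fun i => xb (b i)) (fun i => xb (c i))
      (fun i => yb (a i)) (fun i => yb (b i)) (fun i => yb (c i))
    have h0 : ∑ i, ∑ j, (1 + xb (a i) + xb (b j) + xb (c (f i j)))
        * (1 + yb (a i) + yb (b j) + yb (c (f i j))) = 0 := by
      apply Finset.sum_eq_zero
      intro i _
      apply Finset.sum_eq_zero
      intro j _
      rw [ind, if_neg]
      intro h
      exact hav i j (by simpa using h)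
    rw [h0] at hinv
    have hx : ∀ {n : ℕ} {s : Fin 4 → ℕ} {a : Fin n → Fin 4}
        (_ : ∀ t, (univ.filter fun i => a i = t).card = s t),
        (∑ i, xb (a i) = (s 2 : ZMod 2) + s 3) ∧ (∑ i, yb (a i) = (s 1 : ZMod 2) + s 3)
        ∧ (∑ i, xb (a i) * yb (a i) = (s 3 : ZMod 2)) := by
      intro n s a ha
      refine ⟨?_, ?_, ?_⟩
      · rw [sum_types ha xb]; simp [Fin.sum_univ_four, xb]
      · rw [sum_types ha yb]; simp [Fin.sum_univ_four, yb]
      · rw [sum_types ha (fun t => xb t * yb t)]; simp [Fin.sum_univ_four, xb, yb]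
    obtain ⟨a1, a2, a3⟩ := hx ha
    obtain ⟨b1, b2, b3⟩ := hx hb
    obtain ⟨c1, c2, c3⟩ := hx hc
    simp only [a1, a2, a3, b1, b2, b3, c1, c2, c3] at hinv
    unfold charge at hch
    rw [hch] at hinv
    exact zero_ne_one hinv

theorem cast_parity (k : ℕ) : (k : ZMod 2) = 0 ∨ (k : ZMod 2) = 1 := by
  generalize (k : ZMod 2) = z
  revert z
  decide

/-- For every `n ≥ 1` there is an unavoidable list assignment for `K_{n,n}` with all
multiplicities at most `⌊n/4⌋ + 1`. -/
theorem unavoidable (n : ℕ) (hn : 1 ≤ n) :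
    ∃ L : ListAssignment n, BoundedBy (n / 4 + 1) L ∧ ¬ Avoidable L := by
  obtain ⟨k, r, hr, rfl⟩ : ∃ k r, r < 4 ∧ n = 4 * k + r := ⟨n / 4, n % 4, by omega, by omega⟩
  have hk : (4 * k + r) / 4 + 1 = k + 1 := by omega
  rw [hk]
  have h2 : (2 : ZMod 2) = 0 := by decide
  have h3 : (3 : ZMod 2) = 1 := by decide
  have h4 : (4 : ZMod 2) = 0 := by decide
  have h11 : (1 : ZMod 2) + 1 = 0 := by decide
  interval_cases r
  · -- n = 4 k
    obtain ⟨l, rfl⟩ : ∃ l, k = l + 1 := ⟨k - 1, by omega⟩
    refine main ![l, l + 1, l + 2, l + 1] ![l, l + 2, l + 1, l + 1] ![l + 1, l + 1, l + 1, l + 1]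
      (by simp [Fin.sum_univ_four]; ring) (by simp [Fin.sum_univ_four]; ring)
      (by simp [Fin.sum_univ_four]; ring) ?_ ?_ ?_ ?_
    · intro t; fin_cases t <;> (try simp) <;> (try omega)
    · intro t; fin_cases t <;> (try simp) <;> (try omega)
    · intro t; fin_cases t <;> (try simp) <;> (try omega)
    · rcases cast_parity l with h | h <;> simp [charge, h, h2, h4, h11]
  · -- n = 4 k + 1
    rcases cast_parity k with h | h
    · refine main ![k + 1, k, k, k] ![k + 1, k, k, k] ![k + 1, k, k, k]
        (by simp [Fin.sum_univ_four]; ring) (by simp [Fin.sum_univ_four]; ring)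
        (by simp [Fin.sum_univ_four]; ring) ?_ ?_ ?_ ?_
      · intro t; fin_cases t <;> (try simp) <;> (try omega)
      · intro t; fin_cases t <;> (try simp) <;> (try omega)
      · intro t; fin_cases t <;> (try simp) <;> (try omega)
      · simp [charge, h, h2, h4, h11]
    · refine main ![k, k, k, k + 1] ![k + 1, k, k, k] ![k + 1, k, k, k]
        (by simp [Fin.sum_univ_four]; ring) (by simp [Fin.sum_univ_four]; ring)
        (by simp [Fin.sum_univ_four]; ring) ?_ ?_ ?_ ?_
      · intro t; fin_cases t <;> (try simp) <;> (try omega)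
      · intro t; fin_cases t <;> (try simp) <;> (try omega)
      · intro t; fin_cases t <;> (try simp) <;> (try omega)
      · simp [charge, h, h2, h4, h11]
  · -- n = 4 k + 2
    refine main ![k, k + 1, k, k + 1] ![k, k, k + 1, k + 1] ![k + 1, k, k, k + 1]
      (by simp [Fin.sum_univ_four]; ring) (by simp [Fin.sum_univ_four]; ring)
      (by simp [Fin.sum_univ_four]; ring) ?_ ?_ ?_ ?_
    · intro t; fin_cases t <;> (try simp) <;> (try omega)
    · intro t; fin_cases t <;> (try simp) <;> (try omega)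
    · intro t; fin_cases t <;> (try simp) <;> (try omega)
    · rcases cast_parity k with h | h <;> simp [charge, h, h2, h4, h11]
  · -- n = 4 k + 3
    rcases cast_parity k with h | h
    · refine main ![k + 1, k + 1, k + 1, k] ![k, k + 1, k + 1, k + 1] ![k, k + 1, k + 1, k + 1]
        (by simp [Fin.sum_univ_four]; ring) (by simp [Fin.sum_univ_four]; ring)
        (by simp [Fin.sum_univ_four]; ring) ?_ ?_ ?_ ?_
      · intro t; fin_cases t <;> (try simp) <;> (try omega)
      · intro t; fin_cases t <;> (try simp) <;> (try omega)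
      · intro t; fin_cases t <;> (try simp) <;> (try omega)
      · simp [charge, h, h2, h3, h4, h11]
    · refine main ![k, k + 1, k + 1, k + 1] ![k, k + 1, k + 1, k + 1] ![k, k + 1, k + 1, k + 1]
        (by simp [Fin.sum_univ_four]; ring) (by simp [Fin.sum_univ_four]; ring)
        (by simp [Fin.sum_univ_four]; ring) ?_ ?_ ?_ ?_
      · intro t; fin_cases t <;> (try simp) <;> (try omega)
      · intro t; fin_cases t <;> (try simp) <;> (try omega)
      · intro t; fin_cases t <;> (try simp) <;> (try omega)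
      · simp [charge, h, h2, h3, h4, h11]

/-- **Häggkvist's constant is at most `1/4`.** -/
theorem result :
    (∀ n : ℕ, 1 ≤ n → ∃ L : ListAssignment n, BoundedBy (n / 4 + 1) L ∧ ¬ Avoidable L) ∧
    betaStar ≤ 1 / 4 := by
  refine ⟨unavoidable, ?_⟩
  apply Real.sSup_le _ (by norm_num)
  rintro β ⟨_, hβ⟩
  by_contra hlt
  push Not at hlt
  obtain ⟨n, hn⟩ := exists_nat_gt (1 / (β - 1 / 4))
  have hpos : 0 < β - 1 / 4 := by linarith
  have hn1 : 1 ≤ n := by
    rcases Nat.eq_zero_or_pos n with h | h
    · subst h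
      have : 0 < 1 / (β - 1 / 4) := by positivity
      simp at hn
      linarith
    · exact h
  obtain ⟨L, ⟨h1, h2, h3⟩, hL⟩ := unavoidable n hn1
  have hbound : ((n / 4 + 1 : ℕ) : ℝ) ≤ β * n := by
    have h4 : ((n / 4 : ℕ) : ℝ) ≤ (n : ℝ) / 4 := Nat.cast_div_le
    have h5 : 1 < (β - 1 / 4) * n := by
      rw [div_lt_iff₀ hpos] at hn
      linarith
    push_cast
    nlinarith
  apply hL
  apply hβ n hn1 L
  refine ⟨fun i j => ?_, fun i c => ?_, fun j c => ?_⟩
  · exact le_trans (by exact_mod_cast h1 i j) hbound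
  · exact le_trans (by exact_mod_cast h2 i c) hbound
  · exact le_trans (by exact_mod_cast h3 j c) hbound

end Pool.Agent.Results.MP_ba4857_co.QuarterBound
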